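import Mathlib
import Pool.Agent.Lib.helper4.BaseRes3

set_option autoImplicit false

namespace Pool.Agent.Results.MP_12e723_gt.NotResolvable

open TopologicalSpace

/-- A family `B` of subsets of `X` is resolvable if it is the disjoint union of two bases. -/
def Resolvable {X : Type} [TopologicalSpace X] (B : Set (Set X)) : Prop :=
  ∃ B₀ B₁ : Set (Set X), B₀ ∪ B₁ = B ∧ Disjoint B₀ B₁ ∧
    IsTopologicalBasis B₀ ∧ IsTopologicalBasis B₁

theorem result : ∃ (X : Type) (_ : TopologicalSpace X), T3Space X ∧ SeparableSpace X ∧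
    (∀ x : X, ¬ IsOpen ({x} : Set X)) ∧
      ∃ B : Set (Set X), IsTopologicalBasis B ∧ ¬ Resolvable B := by
  open Pool.Agent.Lib.helper4.BaseRes in
  exact ⟨Y, inferInstance, inferInstance, inferInstance, no_isolatedY, Bt, basisY,
    fun ⟨B₀, B₁, a, b, c, d⟩ => not_resY B₀ B₁ a b c d⟩

end Pool.Agent.Results.MP_12e723_gt.NotResolvable
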